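import Pool.Agent.H58.SO.Basic

/-!
# Passing to a set of types which cannot be made smaller
-/

set_option autoImplicit false
set_option linter.unusedVariables false

namespace Pool.Agent.H1.SO

open Pool.Agent.H68.BP Pool.Agent.H58.SF Pool.Agent.H53.GC Pool.Agent.H53.NR Pool.Agent.H58.SO
open Classical

theorem um_id {σ : Sig} {V X Θ : Type} [LinearOrder V] {M : ℕ} (B : Bs V X Θ M) (𝔸 : Str σ V) :
    UM B B 𝔸 𝔸 (fun t => t) :=
  fun s x hx => ⟨x, hx, fun a b => rfl⟩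

theorem pf_STR (hUMB : T_UMB) (hUMC : T_UMC) (hSUB : T_SUB) : T_STR := by
  intro σ V X Θ _ M B 𝔸 h hs
  have hex : ∃ k : ℕ, ∃ m, UM B B 𝔸 𝔸 m ∧ (Set.range (tm B B m)).ncard = k :=
    ⟨_, fun t => t, um_id B 𝔸, rfl⟩
  obtain ⟨m, hm, hmk⟩ := Nat.find_spec hex
  have hmin : ∀ m₂, UM B B 𝔸 𝔸 m₂ →
      (Set.range (tm B B m)).ncard ≤ (Set.range (tm B B m₂)).ncard := by
    intro m₂ h₂
    rw [hmk]
    exact Nat.find_min' hex ⟨m₂, h₂, rfl⟩
  have hfT : Finite Θ := B.finT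
  have hne : (Set.range (tm B B m)).Nonempty := by
    obtain ⟨v⟩ := B.ne
    exact ⟨_, B.vt v, rfl⟩
  generalize hS : Set.range (tm B B m) = S at hmin hne
  obtain ⟨B', hc, hv, hfr, hL, hR, hinv⟩ := hSUB V X Θ M B S hne
  have hmS : ∀ s, tm B B m s ∈ S := fun s => by rw [← hS]; exact ⟨s, rfl⟩
  -- the inclusion
  have hct : ∀ x y : {v : V // B.vt v ∈ S}, B.ct x.1 y.1 =
      (((B'.ct x y).1.1, (B'.ct x y).2) : X × Ordering) := by
    intro x y
    refine Prod.ext (hc x y).symm ?_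
    exact cmp_eq_cmp_iff'.2 ⟨Iff.rfl, Iff.rfl⟩
  have hinj : ∀ t t' : {t : X // B.L t ∈ S ∧ B.Rt t ∈ S} × Ordering,
      ((t.1.1, t.2) : X × Ordering) = (t'.1.1, t'.2) → t = t' := by
    rintro ⟨⟨a, ha⟩, b⟩ ⟨⟨c, hc⟩, d⟩ h1
    have h2 : a = c := congrArg Prod.fst h1
    have h3 : b = d := congrArg Prod.snd h1
    subst h2 h3
    rfl
  let 𝔸' : Str σ {v : V // B.vt v ∈ S} := fun l x => 𝔸 l (fun a => (x a).1)
  have hrel : ∀ (s : Option (Fin σ.m)) (x : Fin (arP σ M s) → {v : V // B.vt v ∈ S}),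
      relP 𝔸' M s x ↔ relP 𝔸 M s (fun a => (x a).1) := by
    intro s x
    cases s with
    | none => exact Iff.rfl
    | some l => exact Iff.rfl
  have hX : Nonempty ({t : X // B.L t ∈ S ∧ B.Rt t ∈ S} × Ordering) := by
    obtain ⟨v⟩ := B'.ne
    exact ⟨B'.ct v v⟩
  obtain ⟨dflt⟩ := hX
  let m1 : X × Ordering → {t : X // B.L t ∈ S ∧ B.Rt t ∈ S} × Ordering := fun t =>
    if hh : B.L (m t).1 ∈ S ∧ B.Rt (m t).1 ∈ S then (⟨(m t).1, hh⟩, (m t).2) else dflt
  have hm1 : ∀ x y : V, (((m1 (B.ct x y)).1.1, (m1 (B.ct x y)).2) : X × Ordering) =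
      m (B.ct x y) := by
    intro x y
    have h1 := (hUMB σ V X Θ V X Θ M B B 𝔸 𝔸 m hm).1 x y
    have h2 : B.L (m (B.ct x y)).1 ∈ S ∧ B.Rt (m (B.ct x y)).1 ∈ S := by
      rw [h1.1, h1.2]
      exact ⟨hmS _, hmS _⟩
    simp only [m1, dif_pos h2]
  have hum1 : UM B B' 𝔸 𝔸' m1 := by
    intro s x hx
    obtain ⟨y, hy, hy'⟩ := hm s x hx
    have hyS : ∀ a, B.vt (y a) ∈ S := by
      intro a
      have h1 := (hUMB σ V X Θ V X Θ M B B 𝔸 𝔸 m hm).1 (x a) (x a)
      have h2 : B.vt (y a) = B.L (B.ct (y a) (y a)).1 := (B.left _ _).symm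
      rw [h2, hy', h1.1]
      exact hmS _
    refine ⟨fun a => ⟨y a, hyS a⟩, (hrel s _).2 hy, fun a b => hinj _ _ ?_⟩
    rw [hm1, ← hy']
    exact (hct ⟨y a, hyS a⟩ ⟨y b, hyS b⟩).symm
  have humi : UM B' B 𝔸' 𝔸 (fun t => (t.1.1, t.2)) := by
    intro s x hx
    exact ⟨fun a => (x a).1, (hrel s x).1 hx, fun a b => hct (x a) (x b)⟩
  refine ⟨{v : V // B.vt v ∈ S}, {t : X // B.L t ∈ S ∧ B.Rt t ∈ S}, {s : Θ // s ∈ S},
    inferInstance, B', 𝔸', fun v w => m1 (h (fun i => (v i).1) (fun i => (w i).1)), m1,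
    fun t => (t.1.1, t.2), ?_, ?_, hum1, humi, ?_⟩
  · intro hV
    infer_instance
  · refine ⟨?_, ?_, ?_, ?_⟩
    · intro l x y hx hxy
      refine hs.blind l (fun a => (x a).1) (fun a => (y a).1) hx ⟨fun a => ?_, fun a b _ _ => ?_⟩
      · have h1 := hxy.1 a
        rw [← hv, ← hv, h1]
      · have h1 := hxy.2 a b (fun h => h) (fun h => h)
        refine ⟨?_, ?_⟩
        · rw [← Subtype.ext_iff, ← Subtype.ext_iff]
          exact h1.1
        · rw [← hc, ← hc, h1.2]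
    · intro s v hv'
      obtain ⟨x, hx, hx'⟩ := hs.pm s (fun a i => (v a i).1) (fun i => (hrel s _).1 (hv' i))
      obtain ⟨y, hy, hy'⟩ := hum1 s x hx
      refine ⟨y, hy, fun a b => ?_⟩
      rw [hy', hx']
    · intro v w v' w' hsO
      have h1 : h (fun i => (v i).1) (fun i => (w i).1) =
          h (fun i => (v' i).1) (fun i => (w' i).1) := by
        refine hs.tid _ _ _ _ (sameO_empty.2 ?_)
        have h2 := sameO_empty.1 hsO
        have h3 : ∀ (v w : Fin 6 → {v : V // B.vt v ∈ S}) (a : Fin 6 ⊕ Fin 6),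
            Sum.elim (fun i => (v i).1) (fun i => (w i).1) a = (Sum.elim v w a).1 := by
          intro v w a
          cases a <;> rfl
        intro a b
        rw [h3, h3, h3, h3, hct, hct, h2]
      show m1 _ = m1 _
      rw [h1]
    · intro r x y x' y'
      have h3 : ∀ (r : Fin 3) (x y : {v : V // B.vt v ∈ S}),
          (fun i => (pat r x y i).1) = pat r x.1 y.1 := by
        intro r x y
        funext i
        exact pat_map Subtype.val r x y i
      show m1 (h (fun i => (pat r x y i).1) (fun i => (pat r x' y' i).1)) =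
        m1 (h (fun i => (pat 0 x y i).1) (fun i => (pat 0 x' y' i).1))
      rw [h3, h3, h3, h3, hs.exact r]
  · intro n hn
    have h1 := hUMC σ V X Θ _ _ _ _ _ _ M B B' B' 𝔸 𝔸' 𝔸' m1 n hum1 hn
    have h2 := hUMC σ V X Θ _ _ _ V X Θ M B B' B 𝔸 𝔸' 𝔸 (fun t => n (m1 t))
      (fun t => (t.1.1, t.2)) h1.1 humi
    have h3 := hmin _ h2.1
    have h4 : ∀ s, tm B B (fun t => ((n (m1 t)).1.1, (n (m1 t)).2)) s =
        (tm B' B' n (tm B B' m1 s)).1 := by
      intro s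
      have h5 := h2.2 s
      rw [h1.2 s] at h5
      rw [h5]
      show B.L (B'.fr _ _).1 = _
      rw [hfr, B.frL]
    have h5 : Set.range (tm B B (fun t => ((n (m1 t)).1.1, (n (m1 t)).2))) ⊆
        Subtype.val '' Set.range (tm B' B' n) := by
      rintro _ ⟨s, rfl⟩
      rw [h4]
      exact ⟨_, ⟨_, rfl⟩, rfl⟩
    have h6 : S.ncard ≤ (Set.range (tm B' B' n)).ncard := by
      refine h3.trans ((Set.ncard_le_ncard h5 (Set.toFinite _)).trans ?_)
      exact Set.ncard_image_le (Set.toFinite _)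
    have h7 : Set.range (tm B' B' n) = Set.univ := by
      refine Set.eq_of_subset_of_ncard_le (Set.subset_univ _) ?_ (Set.toFinite _)
      rw [Set.ncard_univ]
      exact h6
    have h8 : Function.Surjective (tm B' B' n) := Set.range_eq_univ.1 h7
    exact ⟨Finite.injective_iff_surjective.2 h8, h8⟩

end Pool.Agent.H1.SO
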